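import Pool.Agent.U339.CE.Seq
import Pool.Agent.V11201.SH.E

set_option autoImplicit false

/-!
# Sums over the level sets of functions which are almost constant on windows
-/

namespace Pool.Agent.U339.EL

open Finset Filter Topology
open Pool.Agent.H499R2.ND (Tn)
open Pool.Agent.H499R2.LT (odn)
open Pool.Agent.V11201.SH (Mg Mg_window)
open Pool.Agent.U339.CE (win Reg)

variable {E : Type*} [NormedAddCommGroup E] [NormedSpace ℝ E]

/-- functions with equal values at integers which merge synchronously -/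
def Sync {α : Type*} (Φ : ℕ → α) : Prop :=
  ∀ t m n : ℕ, 2 ^ t ≤ m → 2 ^ t ≤ n → Tn^[t] m = Tn^[t] n → odn t m = odn t n → Φ m = Φ n

open Classical in
/-- the sum of the norms of the sums over the level sets -/
noncomputable def spread {α : Type*} (N : ℕ) (Φ : ℕ → α) (v : ℕ → E) : ℝ :=
  ∑ y ∈ (Icc 1 N).image Φ, ‖∑ n ∈ Icc 1 N with Φ n = y, v n‖

open Classical in
/-- the places `n ≤ N` where `Φ (n + j) ≠ Φ n` -/
noncomputable def ch {α : Type*} (Φ : ℕ → α) (j N : ℕ) : Finset ℕ := {n ∈ Icc 1 N | Φ (n + j) ≠ Φ n}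

theorem sq_small (N : ℕ) : (#{n ∈ Icc 1 N | n * n ≤ N} : ℝ) ≤ Nat.sqrt N := by
  have : {n ∈ Icc 1 N | n * n ≤ N} ⊆ Icc 1 (Nat.sqrt N) := by
    intro n hn
    rw [mem_filter, Finset.mem_Icc] at hn
    rw [Finset.mem_Icc]
    exact ⟨hn.1.1, Nat.le_sqrt.2 hn.2⟩
  have h1 := card_le_card this
  rw [Nat.card_Icc, Nat.add_sub_cancel] at h1
  exact_mod_cast h1

open Classical in
/-- uniformly in `Φ` -/
theorem ch_sub {α : Type*} {Φ : ℕ → α} (h : Sync Φ) (j N : ℕ) :
    ch Φ j N ⊆ {n ∈ Icc 1 N | ¬ Mg 1 N ((n : ℕ) : ℤ) ((n : ℤ) + 1 * (j : ℤ))} ∪ {n ∈ Icc 1 N | n * n ≤ N} := by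
  intro n hn
  unfold ch at hn
  rw [mem_filter] at hn
  rw [mem_union, mem_filter, mem_filter]
  by_cases hs : n * n ≤ N
  · exact Or.inr ⟨hn.1, hs⟩
  refine Or.inl ⟨hn.1, fun hM => hn.2 ?_⟩
  obtain ⟨t, ht, h1, h2⟩ := hM
  have e : (n : ℤ) + 1 * (j : ℤ) = ((n + j : ℕ) : ℤ) := by push_cast; ring
  rw [e] at h1 h2
  rw [Pool.Agent.H499R2.CO.Tn_iter_cast, Pool.Agent.H499R2.CO.Tn_iter_cast] at h1
  rw [Pool.Agent.V11201.SH.od_odn, Pool.Agent.V11201.SH.od_odn] at h2
  have h3 : 2 ^ t ≤ n := by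
    have h4 : (2 : ℕ) ^ t * 2 ^ t = 4 ^ t := by rw [← mul_pow]; norm_num
    by_contra hcon
    have h5 : n < 2 ^ t := by omega
    have : n * n ≤ 2 ^ t * 2 ^ t := Nat.mul_le_mul h5.le h5.le
    omega
  exact h t (n + j) n (by omega) h3 (by exact_mod_cast h1.symm) h2.symm

/-- the number of the changes is small, uniformly in `Φ` -/
theorem ch_small (j : ℕ) {ε : ℝ} (hε : 0 < ε) : ∃ N0 : ℕ, ∀ N : ℕ, N0 ≤ N → ∀ (α : Type) (Φ : ℕ → α), Sync Φ →
    (#(ch Φ j N) : ℝ) ≤ ε * N := by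
  classical
  obtain ⟨θ, hθ, N0, h⟩ := Mg_window (ε := ε / 2) (by positivity)
  have h1 : Tendsto (fun N : ℕ => (N : ℝ) ^ θ) atTop atTop := (tendsto_rpow_atTop hθ).comp tendsto_natCast_atTop_atTop
  obtain ⟨N1, hN1⟩ := eventually_atTop.1 (h1.eventually_ge_atTop (j : ℝ))
  have h2 : Tendsto (fun N : ℕ => √ (N : ℝ)) atTop atTop := Real.tendsto_sqrt_atTop.comp tendsto_natCast_atTop_atTop
  obtain ⟨N2, hN2⟩ := eventually_atTop.1 (h2.eventually_ge_atTop (2 / ε))
  refine ⟨max N0 (max N1 N2), fun N hN α Φ hΦ => ?_⟩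
  have g0 : N0 ≤ N := (le_max_left _ _).trans hN
  have g1 : N1 ≤ N := ((le_max_left _ _).trans (le_max_right _ _)).trans hN
  have g2 : N2 ≤ N := ((le_max_right _ _).trans (le_max_right _ _)).trans hN
  have e : |(((j : ℤ) : ℤ) : ℝ)| = (j : ℝ) := by
    rw [abs_of_nonneg (by positivity)]; norm_cast
  have k1 := h N g0 1 (by norm_num) (j : ℤ) (by rw [e]; exact hN1 N g1)
  have k2 := hN2 N g2
  have k3 := (card_le_card (ch_sub hΦ j N)).trans (card_union_le _ _)
  have k4 : (#(ch Φ j N) : ℝ) ≤ (#{n ∈ Icc 1 N | ¬ Mg 1 N ((n : ℕ) : ℤ) ((n : ℤ) + 1 * (j : ℤ))} : ℝ) +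
      (#{n ∈ Icc 1 N | n * n ≤ N} : ℝ) := by exact_mod_cast k3
  have k5 := sq_small N
  have k6 : (Nat.sqrt N : ℝ) ≤ √ (N : ℝ) := Real.nat_sqrt_le_real_sqrt
  have k7 : √ (N : ℝ) ≤ ε / 2 * N := by
    have hN0 : (0 : ℝ) ≤ N := Nat.cast_nonneg N
    have k8 : √ (N : ℝ) * √ (N : ℝ) = N := Real.mul_self_sqrt hN0
    rw [div_le_iff₀ hε] at k2
    have := Real.sqrt_nonneg (N : ℝ)
    nlinarith
  linarith

open Classical in
theorem fiber_sum {α : Type*} (Φ : ℕ → α) (N : ℕ) (g : ℕ → ℝ) :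
    ∑ y ∈ (Icc 1 N).image Φ, ∑ n ∈ Icc 1 N with Φ n = y, g n = ∑ n ∈ Icc 1 N, g n :=
  Finset.sum_fiberwise_of_maps_to (fun n hn => mem_image_of_mem Φ hn) g

omit [NormedSpace ℝ E] in
open Classical in
/-- sums over level sets, of functions which need not be restricted to values taken in `[1, N]` -/
theorem indicator_sum {α : Type*} (Φ : ℕ → α) (S : Finset α) (A : Finset ℕ) (w : ℕ → E) {M : ℝ}
    (hM : ∀ n, ‖w n‖ ≤ M) : ∑ y ∈ S, ‖∑ n ∈ A, (if Φ n = y then w n else 0)‖ ≤ M * #A := by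
  have hM0 : 0 ≤ M := (norm_nonneg _).trans (hM 0)
  calc ∑ y ∈ S, ‖∑ n ∈ A, (if Φ n = y then w n else 0)‖
      ≤ ∑ y ∈ S, ∑ n ∈ A, (if Φ n = y then M else 0) := by
        refine Finset.sum_le_sum fun y _ => (norm_sum_le _ _).trans (Finset.sum_le_sum fun n _ => ?_)
        split_ifs
        · exact hM n
        · simp
    _ = ∑ n ∈ A, ∑ y ∈ S, (if Φ n = y then M else 0) := Finset.sum_comm
    _ ≤ ∑ n ∈ A, M := by
        refine Finset.sum_le_sum fun n _ => ?_
        rw [Finset.sum_ite_eq]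
        split_ifs
        · exact le_rfl
        · exact hM0
    _ = M * #A := by rw [Finset.sum_const, nsmul_eq_mul, mul_comm]

omit [NormedSpace ℝ E] in
open Classical in
/-- the shift, summed over all level sets -/
theorem shift_sum {α : Type*} (Φ : ℕ → α) (S : Finset α) (w : ℕ → E) {M : ℝ} (hM : ∀ n, ‖w n‖ ≤ M) (N j : ℕ) :
    ∑ y ∈ S, ‖∑ n ∈ Icc 1 N, (if Φ n = y then w n else 0) - ∑ n ∈ Icc 1 N, (if Φ n = y then w (n + j) else 0)‖ ≤
      2 * j * M + 2 * M * #(ch Φ j N) := by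
  have hM0 : 0 ≤ M := (norm_nonneg _).trans (hM 0)
  -- the telescoping part
  have key : ∀ y, ∑ n ∈ Icc 1 N, (if Φ n = y then w n else 0) - ∑ n ∈ Icc 1 N, (if Φ (n + j) = y then w (n + j) else 0) =
      ∑ i ∈ range j, (if Φ (1 + i) = y then w (1 + i) else 0) - ∑ i ∈ range j, (if Φ (N + 1 + i) = y then w (N + 1 + i) else 0) := by
    intro y
    induction j with
    | zero => simp
    | succ j ih =>
      have h1 := Pool.Agent.U339.CE.tele_one (fun n => if Φ n = y then w n else 0) j N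
      rw [Finset.sum_sub_distrib] at h1
      rw [Finset.sum_range_succ, Finset.sum_range_succ]
      have h2 : ∑ n ∈ Icc 1 N, (if Φ n = y then w n else 0) -
          ∑ n ∈ Icc 1 N, (if Φ (n + (j + 1)) = y then w (n + (j + 1)) else 0) =
          (∑ n ∈ Icc 1 N, (if Φ n = y then w n else 0) -
          ∑ n ∈ Icc 1 N, (if Φ (n + j) = y then w (n + j) else 0)) +
          (∑ n ∈ Icc 1 N, (if Φ (n + j) = y then w (n + j) else 0) -
          ∑ n ∈ Icc 1 N, (if Φ (n + (j + 1)) = y then w (n + (j + 1)) else 0)) := by abel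
      rw [h2, ih, h1]
      abel
  have h1 : ∀ y ∈ S, ‖∑ n ∈ Icc 1 N, (if Φ n = y then w n else 0) -
      ∑ n ∈ Icc 1 N, (if Φ n = y then w (n + j) else 0)‖ ≤
      ‖∑ i ∈ range j, (if Φ (1 + i) = y then w (1 + i) else 0)‖ +
      ‖∑ i ∈ range j, (if Φ (N + 1 + i) = y then w (N + 1 + i) else 0)‖ +
      (‖∑ n ∈ ch Φ j N, (if Φ (n + j) = y then w (n + j) else 0)‖ +
      ‖∑ n ∈ ch Φ j N, (if Φ n = y then w (n + j) else 0)‖) := by
    intro y _
    have e1 : ∑ n ∈ Icc 1 N, (if Φ n = y then w n else 0) - ∑ n ∈ Icc 1 N, (if Φ n = y then w (n + j) else 0) =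
        (∑ n ∈ Icc 1 N, (if Φ n = y then w n else 0) - ∑ n ∈ Icc 1 N, (if Φ (n + j) = y then w (n + j) else 0)) +
        (∑ n ∈ Icc 1 N, (if Φ (n + j) = y then w (n + j) else 0) -
          ∑ n ∈ Icc 1 N, (if Φ n = y then w (n + j) else 0)) := by abel
    have e2 : ∑ n ∈ Icc 1 N, (if Φ (n + j) = y then w (n + j) else 0) -
          ∑ n ∈ Icc 1 N, (if Φ n = y then w (n + j) else 0) =
        ∑ n ∈ ch Φ j N, (if Φ (n + j) = y then w (n + j) else 0) -
          ∑ n ∈ ch Φ j N, (if Φ n = y then w (n + j) else 0) := by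
      rw [← Finset.sum_sub_distrib, ← Finset.sum_sub_distrib]
      unfold ch
      rw [Finset.sum_filter]
      apply Finset.sum_congr rfl
      intro n _
      by_cases h : Φ (n + j) = Φ n
      · rw [if_neg (not_not.2 h), h, sub_self]
      · rw [if_pos h]
    rw [e1, key y, e2]
    refine (norm_add_le _ _).trans (add_le_add (norm_sub_le _ _) (norm_sub_le _ _))
  refine (Finset.sum_le_sum h1).trans ?_
  rw [Finset.sum_add_distrib, Finset.sum_add_distrib, Finset.sum_add_distrib]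
  have k1 := indicator_sum (fun i => Φ (1 + i)) S (range j) (fun i => w (1 + i)) (M := M) (fun i => hM _)
  have k2 := indicator_sum (fun i => Φ (N + 1 + i)) S (range j) (fun i => w (N + 1 + i)) (M := M) (fun i => hM _)
  have k3 := indicator_sum (fun i => Φ (i + j)) S (ch Φ j N) (fun i => w (i + j)) (M := M) (fun i => hM _)
  have k4 := indicator_sum (fun i => Φ i) S (ch Φ j N) (fun i => w (i + j)) (M := M) (fun i => hM _)
  rw [card_range] at k1 k2
  linarith

open Classical in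
/-- **The main estimate**, uniform in the function. -/
theorem spread_bound {α : Type*} (Φ : ℕ → α) {v w : ℕ → E} {c : E} {M : ℝ} (hM : ∀ n, ‖w n‖ ≤ M) {h : ℕ} (hh : 1 ≤ h)
    (N : ℕ) {D : ℝ} (hD : ∀ j < h, (#(ch Φ j N) : ℝ) ≤ D) :
    spread N Φ (fun n => v n - c) ≤ ∑ n ∈ Icc 1 N, ‖v n - w n‖ + ∑ n ∈ Icc 1 N, ‖win w h n - c‖ +
      (2 * h * M + 2 * M * D) := by
  have hM0 : 0 ≤ M := (norm_nonneg _).trans (hM 0)
  have hh0 : (0 : ℝ) < h := by exact_mod_cast hh
  set S := (Icc 1 N).image Φ with hS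
  have h1 : ∀ y ∈ S, ‖∑ n ∈ Icc 1 N with Φ n = y, (v n - c)‖ ≤
      ∑ n ∈ Icc 1 N with Φ n = y, ‖v n - w n‖ + ∑ n ∈ Icc 1 N with Φ n = y, ‖win w h n - c‖ +
      (h : ℝ)⁻¹ * ∑ j ∈ range h, ‖∑ n ∈ Icc 1 N, (if Φ n = y then w n else 0) -
        ∑ n ∈ Icc 1 N, (if Φ n = y then w (n + j) else 0)‖ := by
    intro y _
    have e2 : ∑ n ∈ Icc 1 N, (if Φ n = y then w n else 0) - ∑ n ∈ Icc 1 N, (if Φ n = y then win w h n else 0) =
        (h : ℝ)⁻¹ • ∑ j ∈ range h, (∑ n ∈ Icc 1 N, (if Φ n = y then w n else 0) -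
          ∑ n ∈ Icc 1 N, (if Φ n = y then w (n + j) else 0)) := by
      rw [Finset.sum_sub_distrib, Finset.sum_const, card_range, smul_sub, ← Nat.cast_smul_eq_nsmul ℝ,
        smul_smul, inv_mul_cancel₀ hh0.ne', one_smul, Finset.sum_comm, Finset.smul_sum]
      congr 1
      apply Finset.sum_congr rfl
      intro n _
      by_cases g : Φ n = y
      · simp only [if_pos g]; rfl
      · simp only [if_neg g]; simp
    have e1 : ∑ n ∈ Icc 1 N with Φ n = y, (v n - c) = ∑ n ∈ Icc 1 N with Φ n = y, (v n - w n) +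
        ∑ n ∈ Icc 1 N with Φ n = y, (win w h n - c) +
        (∑ n ∈ Icc 1 N, (if Φ n = y then w n else 0) - ∑ n ∈ Icc 1 N, (if Φ n = y then win w h n else 0)) := by
      rw [← Finset.sum_filter, ← Finset.sum_filter, ← Finset.sum_sub_distrib, ← Finset.sum_add_distrib,
        ← Finset.sum_add_distrib]
      apply Finset.sum_congr rfl
      intro n _
      abel
    rw [e1, e2]
    refine (norm_add_le _ _).trans (add_le_add ((norm_add_le _ _).trans
      (add_le_add (norm_sum_le _ _) (norm_sum_le _ _))) ?_)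
    rw [norm_smul, norm_inv, Real.norm_of_nonneg hh0.le]
    exact mul_le_mul_of_nonneg_left (norm_sum_le _ _) (by positivity)
  unfold spread
  refine (Finset.sum_le_sum h1).trans ?_
  rw [Finset.sum_add_distrib, Finset.sum_add_distrib, fiber_sum, fiber_sum, ← Finset.mul_sum, Finset.sum_comm]
  have h2 : ∑ j ∈ range h, ∑ y ∈ S, ‖∑ n ∈ Icc 1 N, (if Φ n = y then w n else 0) -
        ∑ n ∈ Icc 1 N, (if Φ n = y then w (n + j) else 0)‖ ≤ ∑ j ∈ range h, (2 * (h : ℝ) * M + 2 * M * D) := by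
    refine Finset.sum_le_sum fun j hj => (shift_sum Φ S w hM N j).trans ?_
    have g1 := Finset.mem_range.1 hj
    have g2 : (j : ℝ) ≤ h := by exact_mod_cast g1.le
    have g3 := hD j g1
    have g4 := mul_le_mul_of_nonneg_right g2 hM0
    have g5 := mul_le_mul_of_nonneg_left g3 hM0
    nlinarith
  rw [Finset.sum_const, card_range, nsmul_eq_mul] at h2
  have h3 : (h : ℝ)⁻¹ * ∑ j ∈ range h, ∑ y ∈ S, ‖∑ n ∈ Icc 1 N, (if Φ n = y then w n else 0) -
        ∑ n ∈ Icc 1 N, (if Φ n = y then w (n + j) else 0)‖ ≤ 2 * h * M + 2 * M * D := by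
    calc (h : ℝ)⁻¹ * _ ≤ (h : ℝ)⁻¹ * (h * (2 * (h : ℝ) * M + 2 * M * D)) :=
          mul_le_mul_of_nonneg_left h2 (by positivity)
      _ = 2 * h * M + 2 * M * D := by rw [← mul_assoc, inv_mul_cancel₀ hh0.ne', one_mul]
  linarith

/-- **Regular sequences.** The sums over all level sets of a function `Φ` together, uniformly in `Φ`. -/
theorem spread_small {v : ℕ → E} {c : E} (hv : Reg v c) {ε : ℝ} (hε : 0 < ε) :
    ∃ N0 : ℕ, ∀ N : ℕ, N0 ≤ N → ∀ (α : Type) (Φ : ℕ → α), Sync Φ → spread N Φ (fun n => v n - c) ≤ ε * N := by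
  classical
  obtain ⟨w, ⟨M, hM⟩, h1, h, hh, h2⟩ := hv (ε / 4) (by positivity)
  have hM0 : 0 ≤ M := (norm_nonneg _).trans (hM 0)
  have hch : ∀ j : ℕ, ∃ N0 : ℕ, ∀ N : ℕ, N0 ≤ N → ∀ (α : Type) (Φ : ℕ → α), Sync Φ →
      (#(ch Φ j N) : ℝ) ≤ ε / (8 * (M + 1)) * N := fun j => ch_small j (by positivity)
  choose N1 hN1 using hch
  obtain ⟨N2, hN2⟩ := eventually_atTop.1 (h1.and h2)
  have h3 : Tendsto (fun N : ℕ => ε / 4 * (N : ℝ)) atTop atTop :=
    Tendsto.const_mul_atTop (by positivity) tendsto_natCast_atTop_atTop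
  obtain ⟨N3, hN3⟩ := eventually_atTop.1 (h3.eventually_ge_atTop (2 * (h : ℝ) * M))
  refine ⟨max ((range h).sup N1) (max N2 N3), fun N hN α Φ hΦ => ?_⟩
  have g1 : ∀ j < h, N1 j ≤ N := fun j hj =>
    ((Finset.le_sup (f := N1) (Finset.mem_range.2 hj)).trans (le_max_left _ _)).trans hN
  have g2 := hN2 N (((le_max_left _ _).trans (le_max_right _ _)).trans hN)
  have g3 := hN3 N (((le_max_right _ _).trans (le_max_right _ _)).trans hN)
  have g4 := spread_bound Φ (v := v) (c := c) hM hh N (D := ε / (8 * (M + 1)) * N)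
    (fun j hj => hN1 j N (g1 j hj) α Φ hΦ)
  have g5 : 2 * M * (ε / (8 * (M + 1)) * N) ≤ ε / 4 * N := by
    have : M / (M + 1) ≤ 1 := by rw [div_le_one (by positivity)]; linarith
    calc 2 * M * (ε / (8 * (M + 1)) * N) = ε / 4 * N * (M / (M + 1)) := by field_simp; ring
      _ ≤ ε / 4 * N * 1 := mul_le_mul_of_nonneg_left this (by positivity)
      _ = ε / 4 * N := mul_one _
  linarith [g2.1, g2.2]

open Classical in
/-- the rate -/
theorem ch_rate : ∃ C : ℝ, 0 < C ∧ ∀ N : ℕ, 16 ≤ N → ∀ (j : ℕ) (α : Type) (Φ : ℕ → α), Sync Φ →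
    (#(ch Φ j N) : ℝ) ≤ C * √ ((1 + Real.log (1 + (j : ℝ))) * (Real.log (Real.log N) / Real.log N)) * N := by
  obtain ⟨C, hC, h⟩ := Pool.Agent.V11201.SH.Mg_pairs
  refine ⟨C + 1, by positivity, fun N hN j α Φ hΦ => ?_⟩
  have e : |(((j : ℤ) : ℤ) : ℝ)| = (j : ℝ) := by
    rw [abs_of_nonneg (by positivity)]; norm_cast
  have k1 := h N hN 1 (by norm_num) (j : ℤ)
  rw [e] at k1
  have k3 := (card_le_card (ch_sub hΦ j N)).trans (card_union_le _ _)
  have k4 : (#(ch Φ j N) : ℝ) ≤ (#{n ∈ Icc 1 N | ¬ Mg 1 N ((n : ℕ) : ℤ) ((n : ℤ) + 1 * (j : ℤ))} : ℝ) +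
      (#{n ∈ Icc 1 N | n * n ≤ N} : ℝ) := by exact_mod_cast k3
  have k5 := sq_small N
  have k6 := Pool.Agent.V11201.SH.sqrt_small hN
  have hlog : 0 ≤ Real.log (1 + (j : ℝ)) := Real.log_nonneg (by
    have : (0 : ℝ) ≤ j := by positivity
    linarith)
  have hlam := Pool.Agent.V11201.SH.lam_pos hN
  have h4 : √ (Pool.Agent.V11201.SH.lam N) ≤ √ ((1 + Real.log (1 + (j : ℝ))) * Pool.Agent.V11201.SH.lam N) := by
    apply Real.sqrt_le_sqrt
    nlinarith
  have h5 : √ (Pool.Agent.V11201.SH.lam N) * (N : ℝ) ≤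
      √ ((1 + Real.log (1 + (j : ℝ))) * Pool.Agent.V11201.SH.lam N) * N :=
    mul_le_mul_of_nonneg_right h4 (by positivity)
  unfold Pool.Agent.V11201.SH.lam at *
  linarith

/-- block sums from partial sums -/
theorem win_partial {v : ℕ → E} {B : ℝ} (hB : ∀ n, ‖∑ i ∈ range n, v i‖ ≤ B) (h n : ℕ) :
    ‖win v h n‖ ≤ 2 * B / h := by
  unfold win
  rw [norm_smul, norm_inv, Real.norm_of_nonneg (Nat.cast_nonneg h)]
  have e : ∑ j ∈ range h, v (n + j) = ∑ i ∈ range (n + h), v i - ∑ i ∈ range n, v i := by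
    rw [Finset.sum_range_add]
    abel
  rw [e, div_eq_inv_mul]
  apply mul_le_mul_of_nonneg_left _ (by positivity)
  refine (norm_sub_le _ _).trans ?_
  have := hB (n + h)
  have := hB n
  linarith

/-- Sequences with bounded partial sums. -/
theorem partial_spread : ∃ C : ℝ, 0 < C ∧ ∀ N : ℕ, 16 ≤ N → ∀ (α : Type) (Φ : ℕ → α), Sync Φ →
    ∀ (E : Type) [NormedAddCommGroup E] [NormedSpace ℝ E] (v : ℕ → E) (B : ℝ),
      (∀ n, ‖v n‖ ≤ 1) → (∀ n, ‖∑ i ∈ range n, v i‖ ≤ B) →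
      spread N Φ v ≤ C * (√ (Real.log (2 + B)) * (Real.log (Real.log N) / √ (Real.log N)) * N) := by
  classical
  obtain ⟨C, hC, hch⟩ := ch_rate
  refine ⟨8 + 6 * C + 8, by positivity, fun N hN α Φ hΦ E _ _ v B hv hB => ?_⟩
  have hB0 : 0 ≤ B := (norm_nonneg _).trans (hB 0)
  have h16 : (16 : ℝ) ≤ N := by exact_mod_cast hN
  have hl2 := Real.log_two_gt_d9
  have hl2' := Real.log_two_lt_d9
  have hL27 : 2.77 ≤ Real.log N := by
    have h1 : Real.log 16 ≤ Real.log N := Real.log_le_log (by norm_num) h16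
    have h2 : Real.log 16 = 4 * Real.log 2 := by
      rw [show (16 : ℝ) = 2 ^ 4 by norm_num, Real.log_pow]; push_cast; ring
    linarith
  have hℓ : 1 ≤ Real.log (Real.log N) := by
    rw [Real.le_log_iff_exp_le (by linarith)]
    have := Real.exp_one_lt_d9
    linarith
  have hNpos : (0 : ℝ) < N := by linarith
  set L := Real.log N with hL
  set ℓ := Real.log L with hℓd
  set q := √ L with hq
  have hL0 : 0 < L := by linarith
  have hqq : q * q = L := Real.mul_self_sqrt hL0.le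
  have hq1 : 1 ≤ q := by rw [hq]; apply Real.le_sqrt_of_sq_le; linarith
  have hLN : L ≤ N := (Real.log_le_sub_one_of_pos hNpos).trans (by linarith)
  set S := √ (Real.log (2 + B)) with hS
  have hlog2 : Real.log 2 ≤ Real.log (2 + B) := Real.log_le_log (by norm_num) (by linarith)
  have hSS : S * S = Real.log (2 + B) := Real.mul_self_sqrt (by linarith)
  have hS8 : 0.8 ≤ S := by rw [hS]; apply Real.le_sqrt_of_sq_le; linarith
  have hG : 0 < S * (ℓ / q) * N := by positivity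
  -- trivial bound
  have htriv : spread N Φ v ≤ N := by
    unfold spread
    calc ∑ y ∈ (Icc 1 N).image Φ, ‖∑ n ∈ Icc 1 N with Φ n = y, v n‖
        ≤ ∑ y ∈ (Icc 1 N).image Φ, ∑ n ∈ Icc 1 N with Φ n = y, (1 : ℝ) :=
          Finset.sum_le_sum fun y _ => (norm_sum_le _ _).trans (Finset.sum_le_sum fun n _ => hv n)
      _ = ∑ n ∈ Icc 1 N, (1 : ℝ) := fiber_sum Φ N _
      _ = N := by simp
  by_cases hBN : (2 + B) * q ≤ N / q
  swap
  · -- the trivial bound
    push Not at hBN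
    have h0 : (N : ℝ) < (2 + B) * L := by
      rw [div_lt_iff₀ (by linarith)] at hBN
      rw [← hqq]
      linarith
    have h1 : L ≤ Real.log (2 + B) + ℓ := by
      have h2 := Real.log_le_log hNpos h0.le
      rw [Real.log_mul (by positivity) (by positivity)] at h2
      exact h2
    have h3 : ℓ ≤ L / 2 := by
      have h4 := Real.log_le_sub_one_of_pos (show 0 < L / 2 by linarith)
      rw [Real.log_div (by linarith) (by norm_num)] at h4
      linarith
    have h4 : q / 2 ≤ S := by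
      rw [hS]
      apply Real.le_sqrt_of_sq_le
      nlinarith
    have h5 : (1 : ℝ) ≤ 2 * (S * (ℓ / q)) := by
      have : S * (ℓ / q) = S * ℓ / q := by ring
      rw [this, mul_div_assoc', le_div_iff₀ (by linarith)]
      nlinarith
    have h6 : (N : ℝ) ≤ 2 * (S * (ℓ / q) * N) := by nlinarith
    have h7 : 0 ≤ (8 + 6 * C + 6) * (S * (ℓ / q) * N) := by positivity
    have e : (8 + 6 * C + 8) * (S * (ℓ / q) * N) = (8 + 6 * C + 6) * (S * (ℓ / q) * N) +
      2 * (S * (ℓ / q) * N) := by ring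
    rw [e]
    linarith
  set h := ⌈(1 + B) * q⌉₊ with hh
  have hhlow : (1 + B) * q ≤ h := Nat.le_ceil _
  have hhup : (h : ℝ) ≤ (1 + B) * q + 1 := (Nat.ceil_lt_add_one (by positivity)).le
  have hh1 : 1 ≤ h := by
    have : (0 : ℝ) < h := lt_of_lt_of_le (by positivity) hhlow
    have : 0 < h := by exact_mod_cast this
    exact this
  have hh0 : (0 : ℝ) < h := by exact_mod_cast hh1
  set D := C * √ ((1 + Real.log h) * (ℓ / L)) * N with hD
  have hb := spread_bound Φ (v := v) (w := v) (c := 0) (M := 1) hv hh1 N (D := D) (fun j hj => by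
    refine (hch N hN j α Φ hΦ).trans ?_
    rw [hD]
    apply mul_le_mul_of_nonneg_right _ hNpos.le
    apply mul_le_mul_of_nonneg_left _ hC.le
    apply Real.sqrt_le_sqrt
    apply mul_le_mul_of_nonneg_right _ (by positivity)
    have h2 : Real.log (1 + (j : ℝ)) ≤ Real.log h := by
      apply Real.log_le_log (by positivity)
      have h3 : j + 1 ≤ h := hj
      have h4 : ((j + 1 : ℕ) : ℝ) ≤ h := by exact_mod_cast h3
      push_cast at h4
      linarith
    linarith)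
  simp only [sub_zero, sub_self, norm_zero, Finset.sum_const_zero, zero_add, mul_one] at hb
  have t1 : ∑ n ∈ Icc 1 N, ‖win v h n‖ ≤ 4 * (S * (ℓ / q) * N) := by
    have h2 : ∑ n ∈ Icc 1 N, ‖win v h n‖ ≤ ∑ n ∈ Icc 1 N, 2 / q := by
      refine Finset.sum_le_sum fun n _ => (win_partial hB h n).trans ?_
      rw [div_le_div_iff₀ hh0 (by linarith)]
      nlinarith
    rw [Finset.sum_const, Nat.card_Icc, Nat.add_sub_cancel, nsmul_eq_mul] at h2
    refine h2.trans ?_
    have h3 : (1 : ℝ) ≤ 2 * (S * ℓ) := by nlinarith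
    calc (N : ℝ) * (2 / q) = 2 * 1 * (N / q) := by ring
      _ ≤ 2 * (2 * (S * ℓ)) * (N / q) := by
          apply mul_le_mul_of_nonneg_right _ (by positivity)
          linarith
      _ = _ := by ring
  have t2 : 2 * (h : ℝ) ≤ 4 * (S * (ℓ / q) * N) := by
    have h2 : (h : ℝ) ≤ N / q := by nlinarith
    have h3 : (1 : ℝ) ≤ 2 * (S * ℓ) := by nlinarith
    calc 2 * (h : ℝ) ≤ 2 * 1 * (N / q) := by linarith
      _ ≤ 2 * (2 * (S * ℓ)) * (N / q) := by
          apply mul_le_mul_of_nonneg_right _ (by positivity)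
          linarith
      _ = _ := by ring
  have t3 : D ≤ 3 * C * (S * (ℓ / q) * N) := by
    have g1 : Real.log h ≤ Real.log (2 + B) + ℓ / 2 + Real.log 2 := by
      have g2 : (h : ℝ) ≤ (2 + B) * q * 2 := by nlinarith
      have g3 := Real.log_le_log hh0 g2
      rw [Real.log_mul (by positivity) (by norm_num), Real.log_mul (by positivity) (by positivity)] at g3
      have g4 : Real.log q = ℓ / 2 := by rw [hq, Real.log_sqrt (by linarith)]
      linarith
    have g5 : √ ((1 + Real.log h) * (ℓ / L)) ≤ 3 * (S * (ℓ / q)) := by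
      rw [Real.sqrt_le_left (by positivity)]
      have g6 : (3 * (S * (ℓ / q))) ^ 2 = 9 * Real.log (2 + B) * ℓ * (ℓ / L) := by
        rw [← hSS, ← hqq]; field_simp; ring
      rw [g6]
      apply mul_le_mul_of_nonneg_right _ (by positivity)
      nlinarith
    rw [hD]
    calc C * √ ((1 + Real.log h) * (ℓ / L)) * N ≤ C * (3 * (S * (ℓ / q))) * N := by
          apply mul_le_mul_of_nonneg_right _ hNpos.le
          exact mul_le_mul_of_nonneg_left g5 hC.le
      _ = _ := by ring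
  have e : (8 + 6 * C + 8) * (S * (ℓ / q) * N) = 4 * (S * (ℓ / q) * N) + 4 * (S * (ℓ / q) * N) +
      2 * (3 * C * (S * (ℓ / q) * N)) + 8 * (S * (ℓ / q) * N) := by ring
  rw [e]
  linarith

end Pool.Agent.U339.EL
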