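import Pool.Agent.U339.EL.A
import Pool.Agent.U339.CE.Erg
import Pool.Agent.R468.GL.Inst

set_option autoImplicit false

/-!
# The levels of the total stopping time of the Collatz function
-/

namespace Pool.Agent.U339.EL

open Finset Filter Topology
open Pool.Agent.H499R2.ND (Tn)
open Pool.Agent.H499R2.LT (odn)
open Pool.Agent.H499R2.CO (Cn HD)
open Pool.Agent.V11201.SH (ell ell_same Same_of)
open Pool.Agent.U339.CE (win Reg)

theorem ell_sync : ∀ t m n : ℕ, 2 ^ t ≤ m → 2 ^ t ≤ n → Tn^[t] m = Tn^[t] n → odn t m = odn t n → ell m = ell n := by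
  intro t m n hm hn h1 h2
  have hp : 1 ≤ 2 ^ t := Nat.one_le_two_pow
  exact ell_same (hp.trans hm) (hp.trans hn) (Same_of hn hm h1 h2)

theorem ell_iff (n k : ℕ) : ell n = (k : ℕ∞) ↔ (Cn^[k] n = 1 ∧ ∀ i < k, Cn^[i] n ≠ 1) := by
  constructor
  · intro h
    have hne : {k : ℕ∞ | ∃ j : ℕ, Cn^[j] n = 1 ∧ k = j}.Nonempty := by
      by_contra hcon
      rw [Set.not_nonempty_iff_eq_empty] at hcon
      unfold ell at h
      rw [hcon, sInf_empty] at h
      exact ENat.top_ne_natCast k h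
    have hm := csInf_mem hne
    obtain ⟨j, hj, he⟩ := hm
    have he' : ell n = (j : ℕ∞) := he
    rw [h] at he'
    have hkj : k = j := by exact_mod_cast he'
    subst hkj
    refine ⟨hj, fun i hi hc => ?_⟩
    have h1 : ell n ≤ (i : ℕ∞) := sInf_le ⟨i, hc, rfl⟩
    rw [h] at h1
    have : k ≤ i := by exact_mod_cast h1
    omega
  · rintro ⟨h1, h2⟩
    unfold ell
    apply le_antisymm
    · exact sInf_le ⟨_, h1, rfl⟩
    · refine le_sInf ?_
      rintro j ⟨i, hi, rfl⟩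
      have : k ≤ i := by
        by_contra hlt
        exact h2 i (by omega) hi
      exact_mod_cast this

theorem Cn_CC : Cn = Pool.Agent.H499R2.ND.CC := rfl

open Classical in
/-- the levels -/
noncomputable def LC (k N : ℕ) : Finset ℕ := {n ∈ Icc 1 N | ell n = (k : ℕ∞)}

/-- the size of the levels in the bulk -/
theorem LC_low (K : ℝ) : ∃ (c : ℝ) (N0 : ℕ), 0 < c ∧ 16 ≤ N0 ∧ ∀ N : ℕ, N0 ≤ N → ∀ k : ℕ,
    |(k : ℝ) - 3 / Real.log (4 / 3) * Real.log N| ≤ K * √ (Real.log N) →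
    c * (N / √ (Real.log N)) ≤ #(LC k N) := by
  classical
  obtain ⟨δ, Ψ, h0, h1, h2, h3, h4, h5, h6, h7, h8⟩ := Pool.Agent.R468.GL.law_C
  have hl3 : 0 < Real.log 6 := Real.log_pos (by norm_num)
  have hl43 : 0 < Real.log (4 / 3) := Real.log_pos (by norm_num)
  set ε := δ * (Real.log 6 / 10) with hε
  have hε0 : 0 < ε := by positivity
  obtain ⟨X₀, hX⟩ := h8 K ε hε0
  set σ2 := 2 * Real.log 6 ^ 2 / Real.log (4 / 3) ^ 3 with hσ
  have hσ0 : 0 < σ2 := by positivity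
  set a := Real.exp (-(K ^ 2 / (2 * σ2))) with ha
  have ha0 : 0 < a := Real.exp_pos _
  set b := √ (2 * Real.pi * σ2) with hb
  have hb0 : 0 < b := Real.sqrt_pos.2 (by have := Real.pi_pos; positivity)
  refine ⟨ε * (a / b), max ⌈X₀⌉₊ 16, by positivity, le_max_right _ _, fun N hN k hk => ?_⟩
  have hN16 : 16 ≤ N := (le_max_right _ _).trans hN
  have hN16r : (16 : ℝ) ≤ N := by exact_mod_cast hN16
  have hNX : X₀ ≤ N := (Nat.le_ceil X₀).trans (by exact_mod_cast (le_max_left _ _).trans hN)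
  have hLpos : 0 < Real.log N := Real.log_pos (by linarith)
  set L := Real.log N with hL
  have g1 := hX N hNX k hk
  have g2 : (#(LC k N) : ℝ) = ({n : ℕ | 1 ≤ n ∧ (n : ℝ) ≤ (N : ℝ) ∧
      (Pool.Agent.H499R2.ND.CC^[k] n = 1 ∧ ∀ i < k, Pool.Agent.H499R2.ND.CC^[i] n ≠ 1)}.ncard : ℝ) := by
    rw [← Set.ncard_coe_finset]
    unfold LC
    congr 2
    ext n
    rw [Finset.mem_coe, mem_filter, Finset.mem_Icc, Set.mem_ofPred_eq, Nat.cast_le, ell_iff, Cn_CC]
    tauto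
  set g := Real.exp (-(((k : ℝ) - 3 / Real.log (4 / 3) * L) ^ 2 / (2 * (σ2 * L)))) / √ (2 * Real.pi * (σ2 * L)) with hg
  have hg0 : 0 < g := by
    rw [hg]
    have := Real.pi_pos
    positivity
  have hglow : a / b * (1 / √ L) ≤ g := by
    rw [hg]
    have e1 : √ (2 * Real.pi * (σ2 * L)) = b * √ L := by
      rw [hb, ← Real.sqrt_mul (by have := Real.pi_pos; positivity)]
      congr 1; ring
    have e2 : a ≤ Real.exp (-(((k : ℝ) - 3 / Real.log (4 / 3) * L) ^ 2 / (2 * (σ2 * L)))) := by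
      rw [ha]
      apply Real.exp_le_exp.2
      apply neg_le_neg
      have e3 : ((k : ℝ) - 3 / Real.log (4 / 3) * L) ^ 2 ≤ K ^ 2 * L := by
        have e4 : |(k : ℝ) - 3 / Real.log (4 / 3) * L| ^ 2 ≤ (K * √ L) ^ 2 :=
          pow_le_pow_left₀ (abs_nonneg _) hk 2
        rw [sq_abs, mul_pow, Real.sq_sqrt hLpos.le] at e4
        exact e4
      rw [div_le_div_iff₀ (by positivity) (by positivity)]
      nlinarith
    rw [e1, div_mul_div_comm, mul_one]
    exact div_le_div_of_nonneg_right e2 (by positivity)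
  have hNg : 0 < (N : ℝ) * g := by positivity
  have g6 : ε ≤ (#(LC k N) : ℝ) / (N * g) := by
    rw [g2]
    have g7 := (h6 (Real.logb 6 ((N : ℝ) / 2 ^ k))).1
    have g8 := (abs_le.1 g1).1
    have e : δ * (Real.log 6 / 5) = 2 * ε := by rw [hε]; ring
    rw [e] at g7
    rw [hg]
    linarith
  rw [le_div_iff₀ hNg] at g6
  calc ε * (a / b) * (N / √ L) = ε * (N * (a / b * (1 / √ L))) := by ring
    _ ≤ ε * (N * g) := by
        apply mul_le_mul_of_nonneg_left _ hε0.le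
        exact mul_le_mul_of_nonneg_left hglow (by positivity)
    _ ≤ _ := g6

variable {E : Type*} [NormedAddCommGroup E] [NormedSpace ℝ E]

omit [NormedSpace ℝ E] in
open Classical in
/-- some of the level sets -/
theorem some_levels {α : Type} (Φ : ℕ → α) (N : ℕ) (v : ℕ → E) {g : ℕ → α} (hg : Function.Injective g)
    (F : Finset ℕ) : ∑ k ∈ F, ‖∑ n ∈ Icc 1 N with Φ n = g k, v n‖ ≤ spread N Φ v := by
  have h1 : ∑ k ∈ F, ‖∑ n ∈ Icc 1 N with Φ n = g k, v n‖ =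
      ∑ y ∈ F.image g, ‖∑ n ∈ Icc 1 N with Φ n = y, v n‖ := by
    rw [Finset.sum_image hg.injOn]
  have h2 : ∑ y ∈ F.image g, ‖∑ n ∈ Icc 1 N with Φ n = y, v n‖ ≤
      ∑ y ∈ F.image g ∪ (Icc 1 N).image Φ, ‖∑ n ∈ Icc 1 N with Φ n = y, v n‖ :=
    Finset.sum_le_sum_of_subset_of_nonneg subset_union_left fun y _ _ => norm_nonneg _
  have h3 : ∑ y ∈ F.image g ∪ (Icc 1 N).image Φ, ‖∑ n ∈ Icc 1 N with Φ n = y, v n‖ =
      ∑ y ∈ (Icc 1 N).image Φ, ‖∑ n ∈ Icc 1 N with Φ n = y, v n‖ := by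
    symm
    apply Finset.sum_subset subset_union_right
    intro y _ hy
    have : (Icc 1 N).filter (fun n => Φ n = y) = ∅ := by
      rw [Finset.filter_eq_empty_iff]
      intro n hn h
      exact hy (by rw [← h]; exact mem_image_of_mem Φ hn)
    rw [this, Finset.sum_empty, norm_zero]
  rw [h1]
  exact h2.trans (le_of_eq h3)

/-- **The levels in the bulk.** -/
theorem bulkC {v : ℕ → E} {c : E} (hv : Reg v c) (K : ℝ) {ε : ℝ} (hε : 0 < ε) :
    ∃ N0 : ℕ, ∀ N : ℕ, N0 ≤ N →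
      ({k : ℕ | |(k : ℝ) - 3 / Real.log (4 / 3) * Real.log N| ≤ K * √ (Real.log N) ∧
        ε * #(LC k N) < ‖∑ n ∈ LC k N, (v n - c)‖}.ncard : ℝ) ≤ ε * √ (Real.log N) := by
  classical
  obtain ⟨b, N1, hb, hN1, hlow⟩ := LC_low K
  obtain ⟨N2, hsp⟩ := spread_small hv (ε := ε * (ε * b)) (by positivity)
  refine ⟨max N1 N2, fun N hN => ?_⟩
  have g1 : N1 ≤ N := (le_max_left _ _).trans hN
  have g2 : N2 ≤ N := (le_max_right _ _).trans hN
  have hs := hsp N g2 ℕ∞ ell (fun t m n => ell_sync t m n)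
  have hN16 : 16 ≤ N := hN1.trans g1
  have hNR : (16 : ℝ) ≤ N := by exact_mod_cast hN16
  have hL0 : 0 < Real.log N := Real.log_pos (by linarith)
  have hq0 : 0 < √ (Real.log N) := Real.sqrt_pos.2 hL0
  set B := {k : ℕ | |(k : ℝ) - 3 / Real.log (4 / 3) * Real.log N| ≤ K * √ (Real.log N) ∧
        ε * #(LC k N) < ‖∑ n ∈ LC k N, (v n - c)‖} with hB
  have hne : ∀ k ∈ B, ∃ n ≤ N, ell n = (k : ℕ∞) := by
    intro k hk
    have hne : (LC k N).Nonempty := by
      by_contra hcon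
      rw [Finset.not_nonempty_iff_eq_empty] at hcon
      have := hk.2
      rw [hcon] at this
      simp at this
    obtain ⟨n, hn⟩ := hne
    unfold LC at hn
    rw [mem_filter, Finset.mem_Icc] at hn
    exact ⟨n, hn.1.2, hn.2⟩
  have hinj : Function.Injective (fun k : ℕ => (k : ℕ∞)) := fun a b h => by simpa using h
  have hfin : B.Finite := by
    apply Set.Finite.of_finite_image (f := fun k : ℕ => (k : ℕ∞)) _ hinj.injOn
    refine ((Set.finite_Iic N).image ell).subset ?_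
    rintro _ ⟨k, hk, rfl⟩
    obtain ⟨n, h1, h2⟩ := hne k hk
    exact ⟨n, h1, h2⟩
  set F := hfin.toFinset with hF
  have hcard : (B.ncard : ℝ) = #F := by rw [Set.ncard_eq_toFinset_card B hfin]
  rw [hcard]
  have h1 : ∑ k ∈ F, ‖∑ n ∈ LC k N, (v n - c)‖ ≤ ε * (ε * b) * N := by
    refine le_trans ?_ hs
    refine le_trans (le_of_eq ?_) (some_levels ell N (fun n => v n - c) hinj F)
    refine Finset.sum_congr rfl fun k _ => ?_
    congr 1
    refine Finset.sum_congr ?_ fun _ _ => rfl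
    ext n
    unfold LC
    simp only [mem_filter]
  have h2 : #F * (ε * (b * (N / √ (Real.log N)))) ≤ ∑ k ∈ F, ‖∑ n ∈ LC k N, (v n - c)‖ := by
    rw [← nsmul_eq_mul, ← Finset.sum_const]
    refine Finset.sum_le_sum fun k hk => ?_
    have hk' := (Set.Finite.mem_toFinset hfin).1 hk
    exact (mul_le_mul_of_nonneg_left (hlow N g1 k hk'.1) hε.le).trans hk'.2.le
  have h3 := h2.trans h1
  have hNpos : (0 : ℝ) < N := by linarith
  have h4 : (#F : ℝ) * (ε * b * N) ≤ ε * √ (Real.log N) * (ε * b * N) := by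
    have e1 : (#F : ℝ) * (ε * b * N) = (#F : ℝ) * (ε * (b * (N / √ (Real.log N)))) * √ (Real.log N) := by
      field_simp
    rw [e1]
    calc _ ≤ ε * (ε * b) * N * √ (Real.log N) := mul_le_mul_of_nonneg_right h3 hq0.le
      _ = _ := by ring
  exact le_of_mul_le_mul_right h4 (by positivity)

/-- the exceptions to `l(n) ≤ n` -/
def Ex (n : ℕ) : Prop := (n : ℕ∞) < ell n

theorem not_Ex (n : ℕ) : ¬ Ex n ↔ ∃ k : ℕ, k ≤ n ∧ Cn^[k] n = 1 := by
  unfold Ex
  rw [not_lt]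
  constructor
  · intro h
    by_contra hcon
    push Not at hcon
    have h2 : ((n + 1 : ℕ) : ℕ∞) ≤ ell n := by
      refine le_sInf ?_
      rintro k ⟨j, hj, rfl⟩
      have : n + 1 ≤ j := by
        by_contra hlt
        exact hcon j (by omega) hj
      exact_mod_cast this
    have h3 := h2.trans h
    have h4 : n + 1 ≤ n := by exact_mod_cast h3
    omega
  · rintro ⟨k, hk, h⟩
    have h1 : ell n ≤ (k : ℕ∞) := sInf_le ⟨k, h, rfl⟩
    exact h1.trans (by exact_mod_cast hk)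

theorem top_iff (n : ℕ) : ell n ≠ ⊤ ↔ ∃ k : ℕ, Cn^[k] n = 1 := by
  constructor
  · intro h
    by_contra hcon
    push Not at hcon
    apply h
    have : {k : ℕ∞ | ∃ j : ℕ, Cn^[j] n = 1 ∧ k = j} = ∅ := by
      rw [Set.eq_empty_iff_forall_notMem]
      rintro k ⟨j, hj, _⟩
      exact hcon j hj
    unfold ell
    rw [this, sInf_empty]
  · rintro ⟨k, h⟩ htop
    have h1 : ell n ≤ (k : ℕ∞) := sInf_le ⟨k, h, rfl⟩
    rw [htop] at h1
    exact absurd h1 (by simp)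

omit [NormedSpace ℝ E] in
open Classical in
/-- one level set is controlled by the spread -/
theorem one_level {α : Type} (Φ : ℕ → α) (N : ℕ) (v : ℕ → E) (y : α) :
    ‖∑ n ∈ Icc 1 N with Φ n = y, v n‖ ≤ spread N Φ v := by
  by_cases hy : y ∈ (Icc 1 N).image Φ
  · unfold spread
    exact Finset.single_le_sum (f := fun y => ‖∑ n ∈ Icc 1 N with Φ n = y, v n‖) (fun _ _ => norm_nonneg _) hy
  · have : (Icc 1 N).filter (fun n => Φ n = y) = ∅ := by
      rw [Finset.filter_eq_empty_iff]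
      intro n hn h
      exact hy (by rw [← h]; exact mem_image_of_mem Φ hn)
    rw [this, Finset.sum_empty, norm_zero]
    unfold spread
    exact Finset.sum_nonneg fun _ _ => norm_nonneg _

open Classical in
/-- **The criterion.** -/
theorem critC {v : ℕ → ℝ} {c : ℝ} (hc : 0 < c) (hv : Reg v c) (hv0 : ∀ n, 0 ≤ v n) :
    ((∀ n : ℕ, 1 ≤ n → ell n ≠ ⊤) → ∀ ε : ℝ, 0 < ε → ∃ N0 : ℕ, ∀ N : ℕ, N0 ≤ N →
      ∑ n ∈ Icc 1 N with Ex n, v n ≤ ε * N) ∧
    ((∀ ε : ℝ, 0 < ε → ∃ᶠ N : ℕ in atTop, ∑ n ∈ Icc 1 N with Ex n, v n ≤ ε * N) →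
      ∀ n : ℕ, 1 ≤ n → ell n ≠ ⊤) := by
  obtain ⟨δ, d0, d1, d2, d3, d4⟩ := Pool.Agent.V11201.SH.exc
  constructor
  · intro hall ε hε
    have hδ : δ = 0 := d2.2 fun n hn => (top_iff n).1 (hall n hn)
    rw [hδ] at d3
    obtain ⟨w, ⟨M, hM⟩, h1, _⟩ := hv (ε / 2) (by positivity)
    have hM0 : 0 ≤ M := (norm_nonneg _).trans (hM 0)
    obtain ⟨N1, hN1⟩ := eventually_atTop.1 h1
    obtain ⟨N2, hN2⟩ := Pool.Agent.V11201.SH.HD_zero_count d3 (ε := ε / (2 * (M + 1))) (by positivity)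
    refine ⟨max N1 N2, fun N hN => ?_⟩
    have g1 := hN1 N ((le_max_left _ _).trans hN)
    have g2 := hN2 N ((le_max_right _ _).trans hN)
    have e1 : {n : ℕ | 1 ≤ n ∧ n ≤ N ∧ ¬ ∃ k : ℕ, k ≤ n ∧ Cn^[k] n = 1}.ncard = #{n ∈ Icc 1 N | Ex n} := by
      rw [← Set.ncard_coe_finset]
      congr 1
      ext n
      rw [Finset.mem_coe, mem_filter, Finset.mem_Icc, Set.mem_ofPred_eq, ← not_Ex, not_not]
      tauto
    rw [e1] at g2
    have h2 : ∑ n ∈ Icc 1 N with Ex n, v n ≤ ∑ n ∈ Icc 1 N with Ex n, (‖v n - w n‖ + M) := by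
      refine Finset.sum_le_sum fun n _ => ?_
      have := hM n
      have h3 : v n = (v n - w n) + w n := by ring
      calc v n ≤ |v n| := le_abs_self _
        _ = |(v n - w n) + w n| := by rw [← h3]
        _ ≤ |v n - w n| + |w n| := abs_add_le _ _
        _ ≤ ‖v n - w n‖ + M := by
            rw [Real.norm_eq_abs]
            rw [Real.norm_eq_abs] at this
            linarith
    rw [Finset.sum_add_distrib, Finset.sum_const, nsmul_eq_mul] at h2
    have h3 : ∑ n ∈ Icc 1 N with Ex n, ‖v n - w n‖ ≤ ∑ n ∈ Icc 1 N, ‖v n - w n‖ :=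
      Finset.sum_le_sum_of_subset_of_nonneg (filter_subset _ _) fun _ _ _ => norm_nonneg _
    have h4 : (#{n ∈ Icc 1 N | Ex n} : ℝ) * M ≤ ε / 2 * N := by
      calc (#{n ∈ Icc 1 N | Ex n} : ℝ) * M ≤ ε / (2 * (M + 1)) * N * M := mul_le_mul_of_nonneg_right g2 hM0
        _ = ε / 2 * N * (M / (M + 1)) := by field_simp
        _ ≤ ε / 2 * N * 1 := by
            apply mul_le_mul_of_nonneg_left _ (by positivity)
            rw [div_le_one (by positivity)]; linarith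
        _ = ε / 2 * N := mul_one _
    linarith
  · intro hfr
    by_contra hcon
    have hδ : δ ≠ 0 := fun h => hcon fun n hn => (top_iff n).2 (d2.1 h n hn)
    have hδ0 : 0 < δ := lt_of_le_of_ne d0 (Ne.symm hδ)
    -- the density of `ell = ⊤`
    obtain ⟨N1, hN1⟩ := Pool.Agent.V11201.SH.HD_zero_count d4 (ε := δ / 4) (by positivity)
    unfold HD at d3
    obtain ⟨N2, hN2⟩ := eventually_atTop.1 (d3.eventually (lt_mem_nhds (show 3 * δ / 4 < δ by linarith)))
    obtain ⟨N3, hN3⟩ := spread_small hv (show 0 < c * δ / 8 by positivity)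
    obtain ⟨N, h5, h6⟩ := (hfr (c * δ / 8) (by positivity)).and_eventually
      (eventually_ge_atTop (max (max N1 N2) (max N3 1))) |>.exists
    have k1 : N1 ≤ N := ((le_max_left _ _).trans (le_max_left _ _)).trans h6
    have k2 : N2 ≤ N := ((le_max_right _ _).trans (le_max_left _ _)).trans h6
    have k3 : N3 ≤ N := ((le_max_left _ _).trans (le_max_right _ _)).trans h6
    have k4 : 1 ≤ N := ((le_max_right _ _).trans (le_max_right _ _)).trans h6
    have hNR : (0 : ℝ) < N := by exact_mod_cast k4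
    have g1 := hN1 N k1
    have g2 := hN2 N k2
    rw [lt_div_iff₀ hNR] at g2
    beta_reduce at g2
    have g3 := hN3 N k3 ℕ∞ ell (fun t m n => ell_sync t m n)
    have g4 : ‖∑ n ∈ Icc 1 N with ell n = ⊤, (v n - c)‖ ≤ c * δ / 8 * N := by
      refine le_trans (le_of_eq ?_) ((one_level ell N (fun n => v n - c) ⊤).trans g3)
      congr 1
      refine Finset.sum_congr ?_ fun _ _ => rfl
      ext n
      simp only [mem_filter]
    have e1 : {n : ℕ | 1 ≤ n ∧ n ≤ N ∧ ¬ ∃ k : ℕ, k ≤ n ∧ Cn^[k] n = 1}.ncard ≤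
        #{n ∈ Icc 1 N | ell n = ⊤} + {n : ℕ | 1 ≤ n ∧ n ≤ N ∧ ((∃ k : ℕ, Cn^[k] n = 1) ∧
          ¬ ∃ k : ℕ, k ≤ n ∧ Cn^[k] n = 1)}.ncard := by
      rw [← Set.ncard_coe_finset]
      refine (Set.ncard_le_ncard ?_ ((Finset.finite_toSet _).union (Pool.Agent.V11201.SH.fin_le _ N))).trans
        (Set.ncard_union_le _ _)
      rintro n ⟨h7, h8, h9⟩
      by_cases h10 : ell n = ⊤
      · left
        rw [Finset.mem_coe, mem_filter, Finset.mem_Icc]
        exact ⟨⟨h7, h8⟩, h10⟩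
      · right
        exact ⟨h7, h8, (top_iff n).1 h10, h9⟩
    have e2 : ({n : ℕ | 1 ≤ n ∧ n ≤ N ∧ ¬ ∃ k : ℕ, k ≤ n ∧ Cn^[k] n = 1}.ncard : ℝ) ≤
        #{n ∈ Icc 1 N | ell n = ⊤} + δ / 4 * N := by
      have : ({n : ℕ | 1 ≤ n ∧ n ≤ N ∧ ¬ ∃ k : ℕ, k ≤ n ∧ Cn^[k] n = 1}.ncard : ℝ) ≤
        (#{n ∈ Icc 1 N | ell n = ⊤} : ℝ) + ({n : ℕ | 1 ≤ n ∧ n ≤ N ∧ ((∃ k : ℕ, Cn^[k] n = 1) ∧
          ¬ ∃ k : ℕ, k ≤ n ∧ Cn^[k] n = 1)}.ncard : ℝ) := by exact_mod_cast e1
      linarith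
    have g5 : δ / 2 * N ≤ #{n ∈ Icc 1 N | ell n = ⊤} := by linarith
    have g6 : ∑ n ∈ Icc 1 N with ell n = ⊤, v n ≤ ∑ n ∈ Icc 1 N with Ex n, v n := by
      apply Finset.sum_le_sum_of_subset_of_nonneg
      · intro n hn
        rw [mem_filter] at hn ⊢
        refine ⟨hn.1, ?_⟩
        unfold Ex
        rw [hn.2]
        exact ENat.natCast_lt_top n
      · intro n _ _
        exact hv0 n
    rw [Finset.sum_sub_distrib, Finset.sum_const, nsmul_eq_mul, Real.norm_eq_abs, abs_le] at g4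
    have g7 := mul_le_mul_of_nonneg_right g5 hc.le
    have g8 : 0 < c * δ * N := by positivity
    nlinarith [g4.1]

end Pool.Agent.U339.EL
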